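import Pool.Agent.Helper50.MB.Goals

/-!
# Project MB (MP_fda85d_co), packet LV
-/

namespace Pool.Agent.Helper83.MB

open Finset

theorem goalLV : Pool.Agent.Helper50.MB.LV := by
  classical
  intro X E _ gs gt lam h a s hs
  have := Fintype.ofFinite E
  by_contra hcon'
  have hcon : ∀ k, a ≤ k → k < a + s →
      4 * Nat.card E < s * {e | ¬ (lam (gs e) < k ↔ lam (gt e) < k)}.ncard := by
    intro k h1 h2
    by_contra h3
    exact hcon' ⟨k, h1, h2, not_lt.1 h3⟩
  have h1 : ∀ k, {e | ¬ (lam (gs e) < k ↔ lam (gt e) < k)}.ncard =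
      ∑ e : E, if ¬ (lam (gs e) < k ↔ lam (gt e) < k) then 1 else 0 := by
    intro k
    rw [Finset.sum_boole, Nat.cast_id, ← Set.ncard_coe_finset]
    congr 1
    ext e
    simp
  have h2 : ∑ k ∈ Ico a (a + s), {e | ¬ (lam (gs e) < k ↔ lam (gt e) < k)}.ncard ≤
      4 * Nat.card E := by
    rw [Finset.sum_congr rfl fun k _ ↦ h1 k, Finset.sum_comm, Nat.card_eq_fintype_card,
      mul_comm, ← smul_eq_mul, ← Finset.card_univ, ← Finset.sum_const]
    refine Finset.sum_le_sum fun e _ ↦ ?_
    rw [Finset.sum_boole, Nat.cast_id]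
    obtain ⟨h3, h4⟩ := h e
    rcases le_total (lam (gs e)) (lam (gt e)) with hle | hle
    · calc _ ≤ (Ioc (lam (gs e)) (lam (gt e))).card := by
            refine Finset.card_le_card fun k hk ↦ ?_
            simp only [Finset.mem_filter, Finset.mem_Ico, Finset.mem_Ioc] at hk ⊢
            by_contra h6
            apply hk.2
            omega
        _ ≤ 4 := by
            rw [Nat.card_Ioc]
            omega
    · calc _ ≤ (Ioc (lam (gt e)) (lam (gs e))).card := by
            refine Finset.card_le_card fun k hk ↦ ?_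
            simp only [Finset.mem_filter, Finset.mem_Ico, Finset.mem_Ioc] at hk ⊢
            by_contra h6
            apply hk.2
            omega
        _ ≤ 4 := by
            rw [Nat.card_Ioc]
            omega
  have h5 : ∑ k ∈ Ico a (a + s), (4 * Nat.card E + 1) ≤
      ∑ k ∈ Ico a (a + s), s * {e | ¬ (lam (gs e) < k ↔ lam (gt e) < k)}.ncard := by
    refine Finset.sum_le_sum fun k hk ↦ ?_
    rw [Finset.mem_Ico] at hk
    exact hcon k hk.1 hk.2
  rw [Finset.sum_const, Nat.card_Ico, ← Finset.mul_sum, smul_eq_mul] at h5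
  have h6 : a + s - a = s := by omega
  rw [h6] at h5
  have h7 := Nat.le_of_mul_le_mul_left h5 hs
  omega

end Pool.Agent.Helper83.MB
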