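import Pool.Agent.Helper59.MB.Goals1

/-!
# Project MB (MP_49a1ce_an): packet THE
-/

set_option autoImplicit false

open MeasureTheory Filter Topology

namespace Pool.Agent.Helper83.MB

open Pool.Agent.Helper59.MB

theorem iter_TB (n : ℕ) (x : Bas) :
    (⇑TB)^[n] x = (fun j => x.1 (j + n), x.2 + (n : ℤ_[2])) := by
  induction n with
  | zero =>
    simp
  | succ n ih =>
    rw [Function.iterate_succ_apply', ih]
    show ((fun j => x.1 (j + 1 + n)), x.2 + (n : ℤ_[2]) + 1) = _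
    refine Prod.ext ?_ ?_
    · funext j
      show x.1 (j + 1 + n) = x.1 (j + (n + 1 : ℕ))
      exact congrArg x.1 (by push_cast; ring)
    · show x.2 + (n : ℤ_[2]) + 1 = x.2 + ((n + 1 : ℕ) : ℤ_[2])
      push_cast
      ring

theorem t_THE (hLOC : S_LOC) (hPHS : S_PHS) : S_THE := by
  intro s hs l k n i b x hlk hn h0
  obtain ⟨-, hP2, hP3, -, -, -⟩ := hPHS
  have hsl : s l ≤ s k := hs.monotone hlk
  have h1 : ph (s l) (x.2 + (b : ℤ_[2])) = 0 := by
    rw [← hP3 (s k) (s l) _ hsl, h0, Nat.zero_mod]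
  have h2 : x.2 + (n : ℤ_[2]) = (x.2 + (b : ℤ_[2])) + ((i : ℤ) : ℤ_[2]) := by
    have : (n : ℤ_[2]) = ((n : ℤ) : ℤ_[2]) := by push_cast; rfl
    rw [this, hn]
    push_cast
    ring
  have h3 : ph (s l) (x.2 + (n : ℤ_[2])) = i % P s l := by
    have h4 := hP2 (s l) (x.2 + (b : ℤ_[2])) (i : ℤ)
    rw [← h2, h1] at h4
    have h5 : ((ph (s l) (x.2 + (n : ℤ_[2])) : ℕ) : ℤ) = ((i % P s l : ℕ) : ℤ) := by
      rw [h4]
      unfold P
      push_cast
      rw [zero_add]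
    exact_mod_cast h5
  refine ⟨?_, h3⟩
  rw [iter_TB]
  unfold Th
  show ev s l (fromZ (-(ph (s l) (x.2 + (n : ℤ_[2])) : ℤ)) fun j => x.1 (j + n))
    (ph (s l) (x.2 + (n : ℤ_[2]))) = _
  rw [h3]
  have h6 : (fromZ (-((i % P s l : ℕ) : ℤ)) fun j => x.1 (j + n))
      = from' (P s l * (i / P s l)) (fromZ b x.1) := by
    funext j
    show x.1 (-((i % P s l : ℕ) : ℤ) + j + n) = x.1 (b + ((P s l * (i / P s l) + j : ℕ) : ℤ))
    have h7 : ((P s l * (i / P s l) + i % P s l : ℕ) : ℤ) = i := by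
      exact_mod_cast Nat.div_add_mod i (P s l)
    refine congrArg x.1 ?_
    rw [hn]
    push_cast at h7 ⊢
    linarith
  rw [h6, (hLOC s hs).2.1 l l (i / P s l) (i % P s l) _ le_rfl, Nat.div_add_mod]

end Pool.Agent.Helper83.MB
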